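import Mathlib
import Pool.Agent.Helper30.SatB.Force
import Pool.Agent.Helper27.Sat

/-!
# Computable operations on Gödel numbers of bounded formulas
-/

set_option autoImplicit false

namespace Pool.Agent.Helper64.SatB

open FirstOrder FirstOrder.Language Pool.Agent.Helper30.SatB

/-- Code of `⊥`. -/
def cbot : ℕ := Nat.pair 0 0

/-- Code of an implication. -/
def cimp (a b : ℕ) : ℕ := Nat.pair 3 (Nat.pair a b)

/-- Code of a universal quantification. -/
def call (a : ℕ) : ℕ := Nat.pair 4 a

/-- Code of a negation. -/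
def cnot (a : ℕ) : ℕ := cimp a cbot

/-- Code of an existential quantification. -/
def cex (a : ℕ) : ℕ := cnot (call (cnot a))

/-- Code of a conjunction. -/
def cand (a b : ℕ) : ℕ := cnot (cimp a (cnot b))

/-- Code of `⊤`. -/
def ctop : ℕ := cnot cbot

/-- Code of `x_i = x_j`. -/
def ceqv (i j : ℕ) : ℕ := Nat.pair 1 (Nat.pair (Nat.pair 0 i) (Nat.pair 0 j))

variable {F R : ℕ → ℕ → Prop}

/-- `c` is the code of a formula in `n` free variables. -/
def isF (F R : ℕ → ℕ → Prop) (n c : ℕ) : Prop :=
  ∃ φ : (presLang F R).BoundedFormula Empty n, formulaCode φ = c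

theorem isF_bot {n : ℕ} : isF F R n cbot := ⟨.falsum, rfl⟩

theorem isF_imp {n a b : ℕ} : isF F R n (cimp a b) ↔ isF F R n a ∧ isF F R n b := by
  constructor
  · rintro ⟨φ, h⟩
    cases φ with
    | falsum => simp [formulaCode, cimp, Nat.pair_eq_pair] at h
    | equal t s => simp [formulaCode, cimp, Nat.pair_eq_pair] at h
    | rel r ts => simp [formulaCode, cimp, Nat.pair_eq_pair] at h
    | imp φ ψ =>
      simp only [formulaCode, cimp, Nat.pair_eq_pair, true_and] at h
      exact ⟨⟨φ, h.1⟩, ⟨ψ, h.2⟩⟩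
    | all φ => simp [formulaCode, cimp, Nat.pair_eq_pair] at h
  · rintro ⟨⟨φ, rfl⟩, ⟨ψ, rfl⟩⟩
    exact ⟨φ.imp ψ, rfl⟩

theorem isF_all {n a : ℕ} : isF F R n (call a) ↔ isF F R (n + 1) a := by
  constructor
  · rintro ⟨φ, h⟩
    cases φ with
    | falsum => simp [formulaCode, call, Nat.pair_eq_pair] at h
    | equal t s => simp [formulaCode, call, Nat.pair_eq_pair] at h
    | rel r ts => simp [formulaCode, call, Nat.pair_eq_pair] at h
    | imp φ ψ => simp [formulaCode, call, Nat.pair_eq_pair] at h
    | all φ =>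
      simp only [formulaCode, call, Nat.pair_eq_pair, true_and] at h
      exact ⟨φ, h⟩
  · rintro ⟨φ, rfl⟩
    exact ⟨φ.all, rfl⟩

theorem isF_not {n a : ℕ} : isF F R n (cnot a) ↔ isF F R n a := by
  simp [cnot, isF_imp, isF_bot]

theorem isF_top {n : ℕ} : isF F R n ctop := isF_not.2 isF_bot

theorem isF_ex {n a : ℕ} : isF F R n (cex a) ↔ isF F R (n + 1) a := by
  simp [cex, isF_not, isF_all]

theorem isF_and {n a b : ℕ} : isF F R n (cand a b) ↔ isF F R n a ∧ isF F R n b := by
  simp [cand, isF_not, isF_imp]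

theorem isF_eqv {n i j : ℕ} (hi : i < n) (hj : j < n) : isF F R n (ceqv i j) :=
  ⟨.equal (.var (Sum.inr ⟨i, hi⟩)) (.var (Sum.inr ⟨j, hj⟩)), by simp [formulaCode, termCode, ceqv]⟩

variable {M : Type} [(presLang F R).Structure M]

/-- The type of `(a 0, …, a (n-1))`. -/
def ty (F R : ℕ → ℕ → Prop) {M : Type} [(presLang F R).Structure M] (a : ℕ → M) (n : ℕ) : Set ℕ :=
  typeOf F R (fun i : Fin n => a i)

theorem ty_congr {a b : ℕ → M} {n : ℕ} (h : ∀ i < n, a i = b i) : ty F R a n = ty F R b n := by
  unfold ty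
  congr 1
  funext i
  exact h i i.2

theorem mem_ty {a : ℕ → M} {n : ℕ} {φ : (presLang F R).BoundedFormula Empty n} :
    formulaCode φ ∈ ty F R a n ↔ φ.Realize default (fun i : Fin n => a i) := by
  constructor
  · rintro ⟨ψ, h1, h2⟩
    have := Helper27.Sat.formulaCode_injective h2
    rw [← this]
    exact h1
  · intro h
    exact ⟨φ, h, rfl⟩

theorem isF_of_mem {a : ℕ → M} {n c : ℕ} (h : c ∈ ty F R a n) : isF F R n c := by
  obtain ⟨φ, -, h⟩ := h
  exact ⟨φ, h⟩

theorem ty_bot {a : ℕ → M} {n : ℕ} : cbot ∉ ty F R a n := by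
  intro h
  have h2 : formulaCode (BoundedFormula.falsum : (presLang F R).BoundedFormula Empty n) ∈
    ty F R a n := h
  rw [mem_ty] at h2
  exact h2

theorem ty_imp {a : ℕ → M} {n c d : ℕ} (hc : isF F R n c) (hd : isF F R n d) :
    cimp c d ∈ ty F R a n ↔ (c ∈ ty F R a n → d ∈ ty F R a n) := by
  obtain ⟨φ, rfl⟩ := hc
  obtain ⟨ψ, rfl⟩ := hd
  have h : cimp (formulaCode φ) (formulaCode ψ) = formulaCode (φ.imp ψ) := rfl
  rw [h, mem_ty, mem_ty, mem_ty]
  rfl

theorem ty_not {a : ℕ → M} {n c : ℕ} (hc : isF F R n c) :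
    cnot c ∈ ty F R a n ↔ c ∉ ty F R a n := by
  rw [cnot, ty_imp hc isF_bot]
  simp [ty_bot]

theorem ty_top {a : ℕ → M} {n : ℕ} : ctop ∈ ty F R a n := by
  rw [ctop, ty_not isF_bot]
  exact ty_bot

theorem ty_and {a : ℕ → M} {n c d : ℕ} (hc : isF F R n c) (hd : isF F R n d) :
    cand c d ∈ ty F R a n ↔ (c ∈ ty F R a n ∧ d ∈ ty F R a n) := by
  rw [cand, ty_not (isF_imp.2 ⟨hc, isF_not.2 hd⟩), ty_imp hc (isF_not.2 hd), ty_not hd]
  tauto

theorem snoc_eq (a : ℕ → M) (n : ℕ) (x : M) :
    (Fin.snoc (fun i : Fin n => a i) x : Fin (n + 1) → M) =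
      fun i : Fin (n + 1) => Function.update a n x i := by
  funext i
  refine Fin.lastCases ?_ (fun i => ?_) i
  · simp
  · rw [Fin.snoc_castSucc]
    simp [Function.update_of_ne (ne_of_lt i.2)]

theorem ty_all {a : ℕ → M} {n c : ℕ} (hc : isF F R (n + 1) c) :
    call c ∈ ty F R a n ↔ ∀ x, c ∈ ty F R (Function.update a n x) (n + 1) := by
  obtain ⟨φ, rfl⟩ := hc
  have h : call (formulaCode φ) = formulaCode φ.all := rfl
  rw [h, mem_ty, BoundedFormula.realize_all]
  refine forall_congr' fun x => ?_
  rw [mem_ty, snoc_eq]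

theorem ty_ex {a : ℕ → M} {n c : ℕ} (hc : isF F R (n + 1) c) :
    cex c ∈ ty F R a n ↔ ∃ x, c ∈ ty F R (Function.update a n x) (n + 1) := by
  rw [cex, ty_not (isF_all.2 (isF_not.2 hc)), ty_all (isF_not.2 hc)]
  simp only [ty_not hc, not_forall, not_not]

theorem ty_eqv {a : ℕ → M} {n i j : ℕ} (hi : i < n) (hj : j < n) :
    ceqv i j ∈ ty F R a n ↔ a i = a j := by
  have h : ceqv i j = formulaCode (BoundedFormula.equal (.var (Sum.inr ⟨i, hi⟩))
      (.var (Sum.inr ⟨j, hj⟩)) : (presLang F R).BoundedFormula Empty n) := by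
    simp [formulaCode, termCode, ceqv]
  rw [h, mem_ty]
  simp [BoundedFormula.Realize]

/-! ### Computability of the code operations -/

variable {α : Type} [Primcodable α]

theorem comp_pair {f g : α → ℕ} (hf : Computable f) (hg : Computable g) :
    Computable fun a => Nat.pair (f a) (g a) :=
  (Primrec₂.natPair.to_comp).comp hf hg

theorem comp_cimp {f g : α → ℕ} (hf : Computable f) (hg : Computable g) :
    Computable fun a => cimp (f a) (g a) :=
  comp_pair (Computable.const 3) (comp_pair hf hg)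

theorem comp_call {f : α → ℕ} (hf : Computable f) : Computable fun a => call (f a) :=
  comp_pair (Computable.const 4) hf

theorem comp_cnot {f : α → ℕ} (hf : Computable f) : Computable fun a => cnot (f a) :=
  comp_cimp hf (Computable.const _)

theorem comp_cex {f : α → ℕ} (hf : Computable f) : Computable fun a => cex (f a) :=
  comp_cnot (comp_call (comp_cnot hf))

theorem comp_cand {f g : α → ℕ} (hf : Computable f) (hg : Computable g) :
    Computable fun a => cand (f a) (g a) :=
  comp_cnot (comp_cimp hf (comp_cnot hg))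

theorem comp_ceqv {f g : α → ℕ} (hf : Computable f) (hg : Computable g) :
    Computable fun a => ceqv (f a) (g a) :=
  comp_pair (Computable.const 1) (comp_pair (comp_pair (Computable.const 0) hf)
    (comp_pair (Computable.const 0) hg))

/-- Iterated universal quantification. -/
def callN : ℕ → ℕ → ℕ
  | 0, a => a
  | n + 1, a => call (callN n a)

theorem callN_succ' (n a : ℕ) : callN (n + 1) a = callN n (call a) := by
  induction n with
  | zero => rfl
  | succ n ih => rw [callN, ih, callN]

theorem isF_callN {k n a : ℕ} : isF F R k (callN n a) ↔ isF F R (k + n) a := by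
  induction n generalizing k with
  | zero => rfl
  | succ n ih => rw [callN, isF_all, ih, show k + 1 + n = k + (n + 1) by omega]

theorem comp_callN {f g : α → ℕ} (hf : Computable f) (hg : Computable g) :
    Computable fun a => callN (f a) (g a) := by
  have h : Computable fun a => (Nat.rec (g a) (fun _ s => call s) (f a) : ℕ) :=
    Computable.nat_rec (f := f) (g := g) (h := fun _ (q : ℕ × ℕ) => call q.2) hf hg
      (comp_call (Computable.snd.comp Computable.snd))
  refine h.of_eq fun a => ?_
  induction f a with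
  | zero => rfl
  | succ n ih => simp only [ih, callN]

theorem ty_callN {a : ℕ → M} {k n c : ℕ} (hc : isF F R (k + n) c)
    (h : ∀ b : ℕ → M, c ∈ ty F R b (k + n)) : callN n c ∈ ty F R a k := by
  induction n generalizing k a with
  | zero => exact h a
  | succ n ih =>
    rw [callN, ty_all (isF_callN.2 (by rwa [show k + 1 + n = k + (n + 1) by omega]))]
    intro x
    refine ih (by rwa [show k + 1 + n = k + (n + 1) by omega]) fun b => ?_
    rw [show k + 1 + n = k + (n + 1) by omega]
    exact h b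

/-- A test for being the code of a formula. -/
theorem isF_iff {a : ℕ → M} {n c : ℕ} : isF F R n c ↔ callN n (cimp c c) ∈ ty F R a 0 := by
  constructor
  · intro h
    refine ty_callN (by rw [Nat.zero_add]; exact isF_imp.2 ⟨h, h⟩) fun b => ?_
    rw [Nat.zero_add, ty_imp h h]
    exact id
  · intro h
    have := isF_callN.1 (isF_of_mem h)
    rw [Nat.zero_add] at this
    exact (isF_imp.1 this).1

/-- Conjunction of a list of codes. -/
def cconj (l : List ℕ) : ℕ := l.foldl (fun s c => cand s c) ctop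

theorem cconj_aux {n : ℕ} (l : List ℕ) (s : ℕ) (hs : isF F R n s) (hl : ∀ c ∈ l, isF F R n c) :
    isF F R n (l.foldl (fun s c => cand s c) s) ∧ ∀ a : ℕ → M,
      (l.foldl (fun s c => cand s c) s ∈ ty F R a n ↔ s ∈ ty F R a n ∧ ∀ c ∈ l, c ∈ ty F R a n) := by
  induction l generalizing s with
  | nil => simp [hs]
  | cons c l ih =>
    have h1 : isF F R n (cand s c) := isF_and.2 ⟨hs, hl c (by simp)⟩
    obtain ⟨h2, h3⟩ := ih (cand s c) h1 fun c hc => hl c (by simp [hc])
    refine ⟨h2, fun a => ?_⟩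
    rw [List.foldl_cons, h3, ty_and hs (hl c (by simp))]
    simp [and_assoc]

theorem isF_cconj {n : ℕ} {l : List ℕ} (hl : ∀ c ∈ l, isF F R n c) : isF F R n (cconj l) := by
  unfold cconj
  have : ∀ (l : List ℕ) (s : ℕ), isF F R n s → (∀ c ∈ l, isF F R n c) →
      isF F R n (l.foldl (fun s c => cand s c) s) := by
    intro l
    induction l with
    | nil => intro s hs _; exact hs
    | cons c l ih =>
      intro s hs hl
      exact ih _ (isF_and.2 ⟨hs, hl c (by simp)⟩) fun c hc => hl c (by simp [hc])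
  exact this l _ isF_top hl

theorem ty_cconj {n : ℕ} {l : List ℕ} (hl : ∀ c ∈ l, isF F R n c) {a : ℕ → M} :
    cconj l ∈ ty F R a n ↔ ∀ c ∈ l, c ∈ ty F R a n := by
  rw [cconj, (cconj_aux (M := M) l ctop isF_top hl).2 a]
  simp [ty_top]

theorem comp_cconj {f : α → List ℕ} (hf : Computable f) : Computable fun a => cconj (f a) :=
  comp_foldl (h := fun _ (q : ℕ × ℕ) => cand q.1 q.2) hf (Computable.const ctop)
    (comp_cand (Computable.fst.comp Computable.snd) (Computable.snd.comp Computable.snd))

/-- `x_j` is different from all earlier variables. -/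
def cdist (j : ℕ) : ℕ := cconj ((List.range j).map fun i => cnot (ceqv i j))

theorem isF_cdist (j : ℕ) : isF F R (j + 1) (cdist j) := by
  refine isF_cconj fun c hc => ?_
  simp only [List.mem_map, List.mem_range] at hc
  obtain ⟨i, hi, rfl⟩ := hc
  exact isF_not.2 (isF_eqv (by omega) (by omega))

theorem ty_cdist {a : ℕ → M} (j : ℕ) : cdist j ∈ ty F R a (j + 1) ↔ ∀ i < j, a i ≠ a j := by
  rw [cdist, ty_cconj (fun c hc => by
    simp only [List.mem_map, List.mem_range] at hc
    obtain ⟨i, hi, rfl⟩ := hc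
    exact isF_not.2 (isF_eqv (by omega) (by omega)))]
  constructor
  · intro h i hi
    have := h (cnot (ceqv i j)) (List.mem_map.2 ⟨i, List.mem_range.2 hi, rfl⟩)
    rw [ty_not (isF_eqv (by omega) (by omega)), ty_eqv (by omega) (by omega)] at this
    exact this
  · intro h c hc
    simp only [List.mem_map, List.mem_range] at hc
    obtain ⟨i, hi, rfl⟩ := hc
    rw [ty_not (isF_eqv (by omega) (by omega)), ty_eqv (by omega) (by omega)]
    exact h i hi

theorem comp_cdist {f : α → ℕ} (hf : Computable f) : Computable fun a => cdist (f a) := by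
  refine comp_cconj (comp_map (comp_range.comp hf) ?_)
  exact comp_cnot (comp_ceqv Computable.snd (hf.comp Computable.fst))

end Pool.Agent.Helper64.SatB
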