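import Mathlib
import Pool.Agent.Helper64.SatB.Codes

/-!
# The coding system attached to a countable saturated model of a theory with computable types
-/

set_option autoImplicit false

namespace Pool.Agent.Helper64.SatB

open FirstOrder FirstOrder.Language Pool.Agent.Helper30.SatB

variable {F R : ℕ → ℕ → Prop}

/-- The formula with code `c` at level `n` if there is one and `⊥` otherwise. -/
def fixB (chk : ℕ → Bool) (n c : ℕ) : ℕ := bif chk (callN n (cimp c c)) then c else cbot

/-- The literals of level `j` given by the positive facts `P` and negative facts `Q`. -/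
def lits (chk : ℕ → Bool) (P Q : List ℕ) (j : ℕ) : List ℕ :=
  (P.filter fun v => v.unpair.1 == j).map (fun v => fixB chk j v.unpair.2) ++
    (Q.filter fun v => v.unpair.1 == j).map (fun v => cnot (fixB chk j v.unpair.2))

/-- One step in the construction of the test formula. -/
def gstep (chk : ℕ → Bool) (P Q : List ℕ) (j acc : ℕ) : ℕ :=
  cex (cand (cdist j) (cand (cconj (lits chk P Q (j + 1))) acc))

/-- The code of the formula saying that there are `x_j, …, x_{j+s-1}`, distinct and different from
the earlier ones, which satisfy the given literals of levels `j+1, …, j+s`. -/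
def gf (chk : ℕ → Bool) (P Q : List ℕ) : ℕ → ℕ → ℕ
  | _, 0 => ctop
  | j, s + 1 => gstep chk P Q j (gf chk P Q (j + 1) s)

theorem gf_eq (chk : ℕ → Bool) (P Q : List ℕ) (j s : ℕ) :
    gf chk P Q j s = Nat.rec ctop (fun i acc => gstep chk P Q (j + s - i - 1) acc) s := by
  have h : ∀ i ≤ s, gf chk P Q (j + s - i) i =
      Nat.rec ctop (fun i acc => gstep chk P Q (j + s - i - 1) acc) i := by
    intro i
    induction i with
    | zero => intro _; rfl
    | succ i ih =>
      intro hi
      show _ = gstep chk P Q (j + s - i - 1)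
        (Nat.rec ctop (fun i acc => gstep chk P Q (j + s - i - 1) acc) i)
      rw [← ih (by omega), gf, show j + s - (i + 1) = j + s - i - 1 by omega,
        show j + s - i - 1 + 1 = j + s - i by omega]
  have := h s le_rfl
  rw [show j + s - s = j by omega] at this
  exact this

theorem comp_fixB {α : Type} [Primcodable α] {chk : ℕ → Bool} (hchk : Computable chk)
    {f g : α → ℕ} (hf : Computable f) (hg : Computable g) :
    Computable fun a => fixB chk (f a) (g a) :=
  Computable.cond (hchk.comp (comp_callN hf (comp_cimp hg hg))) hg (Computable.const cbot)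

theorem comp_beq {α : Type} [Primcodable α] {f g : α → ℕ} (hf : Computable f)
    (hg : Computable g) : Computable fun a => (f a == g a) :=
  (Primrec.beq (α := ℕ)).to_comp.comp hf hg

theorem comp_le {α : Type} [Primcodable α] {f g : α → ℕ} (hf : Computable f)
    (hg : Computable g) : Computable fun a => decide (f a ≤ g a) :=
  (Primrec.nat_le.decide.to_comp).comp hf hg

theorem comp_fst' {α : Type} [Primcodable α] {f : α → ℕ} (hf : Computable f) :
    Computable fun a => (f a).unpair.1 := Computable.fst.comp (Computable.unpair.comp hf)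

theorem comp_snd' {α : Type} [Primcodable α] {f : α → ℕ} (hf : Computable f) :
    Computable fun a => (f a).unpair.2 := Computable.snd.comp (Computable.unpair.comp hf)

theorem comp_lits {α : Type} [Primcodable α] {chk : ℕ → Bool} (hchk : Computable chk)
    {P Q : α → List ℕ} {f : α → ℕ} (hP : Computable P) (hQ : Computable Q) (hf : Computable f) :
    Computable fun a => lits chk (P a) (Q a) (f a) := by
  refine Computable.list_append.comp ?_ ?_
  · refine comp_map (comp_filter hP ?_) ?_
    · exact comp_beq (comp_fst' Computable.snd) (hf.comp Computable.fst)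
    · exact comp_fixB hchk (hf.comp Computable.fst) (comp_snd' Computable.snd)
  · refine comp_map (comp_filter hQ ?_) ?_
    · exact comp_beq (comp_fst' Computable.snd) (hf.comp Computable.fst)
    · exact comp_cnot (comp_fixB hchk (hf.comp Computable.fst) (comp_snd' Computable.snd))

theorem comp_sub {α : Type} [Primcodable α] {f g : α → ℕ} (hf : Computable f)
    (hg : Computable g) : Computable fun a => f a - g a :=
  (Primrec.nat_sub.to_comp).comp hf hg

theorem comp_add {α : Type} [Primcodable α] {f g : α → ℕ} (hf : Computable f)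
    (hg : Computable g) : Computable fun a => f a + g a :=
  (Primrec.nat_add.to_comp).comp hf hg

theorem comp_gf {α : Type} [Primcodable α] {chk : ℕ → Bool} (hchk : Computable chk)
    {P Q : α → List ℕ} {f g : α → ℕ} (hP : Computable P) (hQ : Computable Q) (hf : Computable f)
    (hg : Computable g) :
    Computable fun a => gf chk (P a) (Q a) (f a) (g a) := by
  have h : Computable fun a => (Nat.rec ctop (fun i acc => gstep chk (P a) (Q a)
      (f a + g a - i - 1) acc) (g a) : ℕ) := by
    refine Computable.nat_rec (f := g) (g := fun _ => ctop)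
      (h := fun a (q : ℕ × ℕ) => gstep chk (P a) (Q a) (f a + g a - q.1 - 1) q.2) hg
      (Computable.const _) ?_
    have hj : Computable fun x : α × ℕ × ℕ => f x.1 + g x.1 - x.2.1 - 1 :=
      comp_sub (comp_sub (comp_add (hf.comp Computable.fst) (hg.comp Computable.fst))
        (Computable.fst.comp Computable.snd)) (Computable.const 1)
    refine comp_cex (comp_cand (comp_cdist hj) (comp_cand (comp_cconj
      (comp_lits hchk (hP.comp Computable.fst) (hQ.comp Computable.fst)
        (Computable.succ.comp hj))) (Computable.snd.comp Computable.snd)))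
  exact h.of_eq fun a => (gf_eq chk (P a) (Q a) (f a) (g a)).symm

variable {N : Type} [(presLang F R).Structure N]

/-- The meaning of the test formula. -/
def Good (F R : ℕ → ℕ → Prop) {N : Type} [(presLang F R).Structure N] (P Q : List ℕ)
    (a : ℕ → N) (j s : ℕ) : Prop :=
  ∃ b : ℕ → N, (∀ i < j, b i = a i) ∧ (∀ i k, i < k → j ≤ k → k < j + s → b i ≠ b k) ∧
    (∀ v ∈ P, j < v.unpair.1 → v.unpair.1 ≤ j + s → v.unpair.2 ∈ ty F R b v.unpair.1) ∧
    (∀ v ∈ Q, j < v.unpair.1 → v.unpair.1 ≤ j + s → v.unpair.2 ∉ ty F R b v.unpair.1)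

section

variable {chk : ℕ → Bool}

theorem isF_fixB {a : ℕ → N} (hchk : ∀ c, chk c = true ↔ c ∈ ty F R a 0) (n c : ℕ) :
    isF F R n (fixB chk n c) := by
  unfold fixB
  cases h : chk (callN n (cimp c c)) with
  | false => exact isF_bot
  | true =>
    rw [hchk] at h
    exact isF_iff.2 h

theorem ty_fixB {a : ℕ → N} (hchk : ∀ c, chk c = true ↔ c ∈ ty F R a 0) (n c : ℕ) (b : ℕ → N) :
    fixB chk n c ∈ ty F R b n ↔ c ∈ ty F R b n := by
  unfold fixB
  cases h : chk (callN n (cimp c c)) with
  | false =>
    simp only [cond_false]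
    constructor
    · exact fun h => absurd h ty_bot
    · intro h2
      have := (hchk _).2 (isF_iff.1 (isF_of_mem h2))
      rw [h] at this
      exact absurd this (by simp)
  | true => rfl

theorem isF_lits {a : ℕ → N} (hchk : ∀ c, chk c = true ↔ c ∈ ty F R a 0) (P Q : List ℕ) (j : ℕ) :
    ∀ c ∈ lits chk P Q j, isF F R j c := by
  intro c hc
  simp only [lits, List.mem_append, List.mem_map] at hc
  rcases hc with ⟨v, -, rfl⟩ | ⟨v, -, rfl⟩
  · exact isF_fixB hchk j _
  · exact isF_not.2 (isF_fixB hchk j _)

theorem ty_lits {a : ℕ → N} (hchk : ∀ c, chk c = true ↔ c ∈ ty F R a 0) (P Q : List ℕ) (j : ℕ)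
    (b : ℕ → N) : cconj (lits chk P Q j) ∈ ty F R b j ↔
      (∀ v ∈ P, v.unpair.1 = j → v.unpair.2 ∈ ty F R b j) ∧
      ∀ v ∈ Q, v.unpair.1 = j → v.unpair.2 ∉ ty F R b j := by
  rw [ty_cconj (isF_lits hchk P Q j)]
  simp only [lits, List.mem_append, List.mem_map, List.mem_filter, beq_iff_eq]
  constructor
  · intro h
    constructor
    · intro v hv hj
      have := h _ (Or.inl ⟨v, ⟨hv, hj⟩, rfl⟩)
      rwa [ty_fixB hchk] at this
    · intro v hv hj
      have := h _ (Or.inr ⟨v, ⟨hv, hj⟩, rfl⟩)
      rwa [ty_not (isF_fixB hchk j _), ty_fixB hchk] at this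
  · rintro ⟨h1, h2⟩ c (⟨v, ⟨hv, hj⟩, rfl⟩ | ⟨v, ⟨hv, hj⟩, rfl⟩)
    · rw [ty_fixB hchk]
      exact h1 v hv hj
    · rw [ty_not (isF_fixB hchk j _), ty_fixB hchk]
      exact h2 v hv hj

theorem gf_spec {a₀ : ℕ → N} (hchk : ∀ c, chk c = true ↔ c ∈ ty F R a₀ 0) (P Q : List ℕ)
    (s : ℕ) : ∀ j, isF F R j (gf chk P Q j s) ∧
      ∀ a : ℕ → N, gf chk P Q j s ∈ ty F R a j ↔ Good F R P Q a j s := by
  induction s with
  | zero =>
    intro j
    refine ⟨isF_top, fun a => ?_⟩
    constructor
    · intro _
      exact ⟨a, fun i _ => rfl, fun i k _ h1 h2 => absurd h2 (by omega),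
        fun v _ h1 h2 => absurd h2 (by omega), fun v _ h1 h2 => absurd h2 (by omega)⟩
    · intro _
      rw [gf]
      exact ty_top
  | succ s ih =>
    intro j
    obtain ⟨h1, h2⟩ := ih (j + 1)
    have e1 := isF_cconj (isF_lits hchk P Q (j + 1))
    have e2 := isF_cdist (F := F) (R := R) j
    have e3 := isF_and.2 ⟨e1, h1⟩
    rw [gf, gstep]
    refine ⟨isF_ex.2 (isF_and.2 ⟨e2, e3⟩), fun a => ?_⟩
    rw [ty_ex (isF_and.2 ⟨e2, e3⟩)]
    constructor
    · rintro ⟨x, hx⟩
      rw [ty_and e2 e3, ty_and e1 h1, ty_cdist, ty_lits hchk, h2] at hx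
      obtain ⟨hd, ⟨hP, hQ⟩, b, hb1, hb2, hb3, hb4⟩ := hx
      have hbj : ∀ i < j + 1, b i = Function.update a j x i := hb1
      have hba : ∀ i < j, b i = a i := by
        intro i hi
        rw [hbj i (by omega), Function.update_of_ne (by omega)]
      refine ⟨b, hba, ?_, ?_, ?_⟩
      · intro i k hik hjk hks
        rcases eq_or_lt_of_le hjk with rfl | h
        · rw [hbj i (by omega), hbj j (by omega)]
          exact hd i hik
        · exact hb2 i k hik (by omega) (by omega)
      · intro v hv hv1 hv2
        rcases eq_or_lt_of_le (Nat.succ_le_of_lt hv1) with h | h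
        · have := hP v hv h.symm
          rw [← h, ty_congr hbj]
          exact this
        · exact hb3 v hv h (by omega)
      · intro v hv hv1 hv2
        rcases eq_or_lt_of_le (Nat.succ_le_of_lt hv1) with h | h
        · have := hQ v hv h.symm
          rw [← h, ty_congr hbj]
          exact this
        · exact hb4 v hv h (by omega)
    · rintro ⟨b, hb1, hb2, hb3, hb4⟩
      have hbj : ∀ i < j + 1, Function.update a j (b j) i = b i := by
        intro i hi
        by_cases h : i = j
        · subst h; simp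
        · rw [Function.update_of_ne h, hb1 i (by omega)]
      refine ⟨b j, ?_⟩
      rw [ty_and e2 e3, ty_and e1 h1, ty_cdist, ty_lits hchk, h2]
      refine ⟨?_, ⟨?_, ?_⟩, b, fun i hi => (hbj i hi).symm, ?_, ?_, ?_⟩
      · intro i hi
        rw [hbj i (by omega), hbj j (by omega)]
        exact hb2 i j hi le_rfl (by omega)
      · intro v hv hv1
        rw [ty_congr hbj]
        have := hb3 v hv (by omega) (by omega)
        rwa [hv1] at this
      · intro v hv hv1
        rw [ty_congr hbj]
        have := hb4 v hv (by omega) (by omega)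
        rwa [hv1] at this
      · intro i k hik hjk hks
        exact hb2 i k hik (by omega) (by omega)
      · intro v hv hv1 hv2
        exact hb3 v hv (by omega) (by omega)
      · intro v hv hv1 hv2
        exact hb4 v hv (by omega) (by omega)

end

/-! ### Conditions -/

/-- Finite injective sequences of elements of `N` (continued arbitrarily). -/
structure Cnd (N : Type) where
  n : ℕ
  a : ℕ → N
  inj : ∀ i k, i < k → k < n → a i ≠ a k

/-- Extension. -/
def Cnd.le (p q : Cnd N) : Prop := p.n ≤ q.n ∧ ∀ i < p.n, q.a i = p.a i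

/-- The facts decided positively by a condition. -/
def Cnd.D (F R : ℕ → ℕ → Prop) {N : Type} [(presLang F R).Structure N] (p : Cnd N) : Set ℕ :=
  {v | v.unpair.1 ≤ p.n ∧ v.unpair.2 ∈ ty F R p.a v.unpair.1}

theorem Cnd.le_refl (p : Cnd N) : p.le p := ⟨le_rfl, fun _ _ => rfl⟩

theorem Cnd.le_trans (p q r : Cnd N) (h : p.le q) (h' : q.le r) : p.le r :=
  ⟨h.1.trans h'.1, fun i hi => (h'.2 i (lt_of_lt_of_le hi h.1)).trans (h.2 i hi)⟩

theorem Cnd.le.ty_eq {p q : Cnd N} (h : p.le q) {n : ℕ} (hn : n ≤ p.n) :
    ty F R q.a n = ty F R p.a n := ty_congr fun i hi => h.2 i (lt_of_lt_of_le hi hn)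

theorem Cnd.D_mono (p q : Cnd N) (h : p.le q) : p.D F R ⊆ q.D F R := by
  rintro v ⟨h1, h2⟩
  exact ⟨h1.trans h.1, by rw [h.ty_eq h1]; exact h2⟩

theorem Cnd.ext [Infinite N] (p : Cnd N) (n : ℕ) (hn : p.n ≤ n) : ∃ q : Cnd N, p.le q ∧ q.n = n := by
  classical
  induction n, hn using Nat.le_induction with
  | base => exact ⟨p, p.le_refl, rfl⟩
  | succ n hn ih =>
    obtain ⟨q, hq, rfl⟩ := ih
    obtain ⟨x, hx⟩ := Infinite.exists_notMem_finset ((Finset.range q.n).image q.a)
    refine ⟨⟨q.n + 1, Function.update q.a q.n x, ?_⟩, ?_, rfl⟩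
    · intro i k hik hk
      rcases Nat.lt_succ_iff_lt_or_eq.1 hk with h | rfl
      · rw [Function.update_of_ne (by omega), Function.update_of_ne (by omega)]
        exact q.inj i k hik h
      · rw [Function.update_of_ne (by omega), Function.update_self]
        intro h
        exact hx (Finset.mem_image.2 ⟨i, Finset.mem_range.2 hik, h⟩)
    · refine ⟨?_, fun i hi => ?_⟩
      · exact Nat.le_succ_of_le hq.1
      · show Function.update q.a q.n x i = p.a i
        rw [Function.update_of_ne (by have := hq.1; omega)]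
        exact hq.2 i hi

/-- Appending a given element. -/
theorem Cnd.append (p : Cnd N) (x : N) : ∃ q : Cnd N, p.le q ∧ ∃ k < q.n, q.a k = x := by
  by_cases h : ∃ k < p.n, p.a k = x
  · exact ⟨p, p.le_refl, h⟩
  · push Not at h
    refine ⟨⟨p.n + 1, Function.update p.a p.n x, ?_⟩, ⟨Nat.le_succ _, ?_⟩, p.n, Nat.lt_succ_self _, ?_⟩
    · intro i k hik hk
      rcases Nat.lt_succ_iff_lt_or_eq.1 hk with h' | rfl
      · rw [Function.update_of_ne (by omega), Function.update_of_ne (by omega)]
        exact p.inj i k hik h'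
      · rw [Function.update_of_ne (by omega), Function.update_self]
        exact h i hik
    · intro i hi
      show Function.update p.a p.n x i = p.a i
      rw [Function.update_of_ne (by omega)]
    · show Function.update p.a p.n x p.n = x
      simp

/-- Extensions of a condition are the witnesses of the test formula. -/
theorem good_iff (p : Cnd N) (P Q : List ℕ) (s : ℕ) : Good F R P Q p.a p.n s ↔
    ∃ q : Cnd N, p.le q ∧ q.n = p.n + s ∧
      (∀ v ∈ P, p.n < v.unpair.1 → v.unpair.1 ≤ q.n → v ∈ q.D F R) ∧
      ∀ v ∈ Q, p.n < v.unpair.1 → v.unpair.1 ≤ q.n → v ∉ q.D F R := by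
  constructor
  · rintro ⟨b, hb1, hb2, hb3, hb4⟩
    refine ⟨⟨p.n + s, b, ?_⟩, ⟨Nat.le_add_right _ _, hb1⟩, rfl, ?_, ?_⟩
    · intro i k hik hk
      by_cases h : p.n ≤ k
      · exact hb2 i k hik h hk
      · rw [hb1 i (by omega), hb1 k (by omega)]
        exact p.inj i k hik (by omega)
    · exact fun v hv h1 h2 => ⟨h2, hb3 v hv h1 h2⟩
    · exact fun v hv h1 h2 h3 => hb4 v hv h1 h2 h3.2
  · rintro ⟨q, hq, hqs, h1, h2⟩
    refine ⟨q.a, hq.2, ?_, ?_, ?_⟩
    · intro i k hik _ hk
      exact q.inj i k hik (by omega)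
    · exact fun v hv h3 h4 => (h1 v hv h3 (by omega)).2
    · exact fun v hv h3 h4 h5 => h2 v hv h3 (by omega) ⟨by omega, h5⟩

end Pool.Agent.Helper64.SatB
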