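import Mathlib
import Pool.Agent.Helper64.SatB.Inst

/-!
# The coding system of a theory: all fields
-/

set_option autoImplicit false

namespace Pool.Agent.Helper64.SatB

open FirstOrder FirstOrder.Language Pool.Agent.Helper30.SatB

variable {F R : ℕ → ℕ → Prop}

theorem mem_le_encode {l : List ℕ} {a : ℕ} (h : a ∈ l) : a ≤ Encodable.encode l := by
  induction l with
  | nil => cases h
  | cons b l ih =>
    rw [Encodable.encode_list_cons]
    rcases List.mem_cons.mp h with rfl | h
    · exact (Nat.left_le_pair _ _).trans (Nat.le_succ _)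
    · exact ((ih h).trans (Nat.right_le_pair _ _)).trans (Nat.le_succ _)

theorem unpair_le_encode {l : List ℕ} {a : ℕ} (h : a ∈ l) :
    a.unpair.1 ≤ Encodable.encode l := (Nat.unpair_left_le a).trans (mem_le_encode h)

/-- The computable reduction of a finite set of facts about some extension. -/
def fS (chk : ℕ → Bool) (n : ℕ) (L : List ℕ) : List ℕ :=
  (L.filter fun v => decide (v.unpair.1 ≤ n)) ++
    [Nat.pair n (gf chk L [] n (Encodable.encode L - n))]

theorem comp_fS {chk : ℕ → Bool} (hchk : Computable chk) : Computable₂ (fS chk) := by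
  refine Computable.list_append.comp ?_ ?_
  · exact comp_filter Computable.snd (comp_le (comp_fst' Computable.snd)
      (Computable.fst.comp Computable.fst))
  · refine Computable.list_cons.comp (comp_pair Computable.fst ?_) (Computable.const _)
    exact comp_gf hchk Computable.snd (Computable.const _) Computable.fst
      (comp_sub (Computable.encode.comp Computable.snd) Computable.fst)

variable {N : Type} [(presLang F R).Structure N]

/-- Truncation. -/
def Cnd.trunc (p : Cnd N) (m : ℕ) (h : m ≤ p.n) : Cnd N :=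
  ⟨m, p.a, fun i k hik hk => p.inj i k hik (by omega)⟩

theorem fS_spec [Infinite N] {chk : ℕ → Bool} {a₀ : ℕ → N}
    (hchk : ∀ c, chk c = true ↔ c ∈ ty F R a₀ 0) (b : Cnd N) (L : List ℕ) :
    (∃ c : Cnd N, b.le c ∧ ∀ v ∈ L, v ∈ c.D F R) ↔ ∀ v ∈ fS chk b.n L, v ∈ b.D F R := by
  have hm : b.n ≤ b.n + (Encodable.encode L - b.n) := by omega
  constructor
  · rintro ⟨c, hc, hL⟩ v hv
    simp only [fS, List.mem_append, List.mem_filter, List.mem_singleton,
      decide_eq_true_eq] at hv
    rcases hv with ⟨hv, hv1⟩ | rfl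
    · exact ⟨hv1, by rw [← hc.ty_eq hv1]; exact (hL v hv).2⟩
    · refine ⟨by simp, ?_⟩
      simp only [Nat.unpair_pair]
      rw [(gf_spec hchk L [] (Encodable.encode L - b.n) b.n).2, good_iff]
      obtain ⟨c', hc', hn⟩ := c.ext (max c.n (b.n + (Encodable.encode L - b.n)))
        (le_max_left _ _)
      refine ⟨c'.trunc (b.n + (Encodable.encode L - b.n)) (by rw [hn]; exact le_max_right _ _),
        ⟨hm, ?_⟩, rfl, ?_, ?_⟩
      · intro i hi
        exact (b.le_trans _ _ hc hc').2 i hi
      · intro v hv _ h2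
        exact ⟨h2, (Cnd.D_mono c c' hc' (hL v hv)).2⟩
      · intro v hv
        exact absurd hv (by simp)
  · intro h
    have h1 : ∀ v ∈ L, v.unpair.1 ≤ b.n → v ∈ b.D F R := by
      intro v hv hv1
      exact h v (by simp [fS, hv, hv1])
    have h2 := (h (Nat.pair b.n (gf chk L [] b.n (Encodable.encode L - b.n)))
      (by simp [fS])).2
    simp only [Nat.unpair_pair] at h2
    rw [(gf_spec hchk L [] (Encodable.encode L - b.n) b.n).2, good_iff] at h2
    obtain ⟨q, hq, hqn, hq1, -⟩ := h2
    refine ⟨q, hq, fun v hv => ?_⟩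
    by_cases hv1 : v.unpair.1 ≤ b.n
    · exact Cnd.D_mono b q hq (h1 v hv hv1)
    · refine hq1 v hv (by omega) ?_
      have := unpair_le_encode hv
      omega

/-- The test for the existence of an extension of level `n` with facts `P` and without facts
`Q`; `mem` decides the facts of the condition and `l` is its level. -/
def tS (chk : ℕ → Bool) (mem : ℕ → Bool) (l n : ℕ) (P Q : List ℕ) : Bool :=
  decide (l ≤ n) && P.all (fun v => decide (v.unpair.1 ≤ n) &&
    (!decide (v.unpair.1 ≤ l) || mem v)) &&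
    Q.all (fun v => !decide (v.unpair.1 ≤ l) || !mem v) &&
    mem (Nat.pair l (gf chk P Q l (n - l)))

theorem comp_tS {chk : ℕ → Bool} (hchk : Computable chk) {mem : ℕ → Bool}
    (hmem : Computable mem) (l : ℕ) :
    Computable fun p : ℕ × List ℕ × List ℕ => tS chk mem l p.1 p.2.1 p.2.2 := by
  have h1 : Computable fun p : ℕ × List ℕ × List ℕ => p.2.1 :=
    Computable.fst.comp Computable.snd
  have h2 : Computable fun p : ℕ × List ℕ × List ℕ => p.2.2 :=
    Computable.snd.comp Computable.snd
  refine comp_and (comp_and (comp_and ?_ (comp_all h1 ?_)) (comp_all h2 ?_)) ?_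
  · exact comp_le (Computable.const l) Computable.fst
  · refine comp_and ?_ (comp_or (comp_not ?_) ?_)
    · exact comp_le (comp_fst' Computable.snd) (Computable.fst.comp Computable.fst)
    · exact comp_le (comp_fst' Computable.snd) (Computable.const l)
    · exact hmem.comp Computable.snd
  · refine comp_or (comp_not ?_) (comp_not ?_)
    · exact comp_le (comp_fst' Computable.snd) (Computable.const l)
    · exact hmem.comp Computable.snd
  · refine hmem.comp (comp_pair (Computable.const l) ?_)
    exact comp_gf hchk h1 h2 (Computable.const l)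
      (comp_sub Computable.fst (Computable.const l))

theorem tS_spec {chk : ℕ → Bool} {a₀ : ℕ → N}
    (hchk : ∀ c, chk c = true ↔ c ∈ ty F R a₀ 0) (a : Cnd N) {mem : ℕ → Bool}
    (hmem : ∀ v, mem v = true ↔ v ∈ a.D F R) (n : ℕ) (P Q : List ℕ) :
    tS chk mem a.n n P Q = true ↔
      ∃ b : Cnd N, a.le b ∧ b.n = n ∧ (∀ v ∈ P, v ∈ b.D F R) ∧ ∀ v ∈ Q, v ∉ b.D F R := by
  simp only [tS, Bool.and_eq_true, decide_eq_true_eq, List.all_eq_true, Bool.or_eq_true,
    Bool.not_eq_true', decide_eq_false_iff_not, hmem, ← Bool.not_eq_true]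
  constructor
  · rintro ⟨⟨⟨h1, h2⟩, h3⟩, h4⟩
    have h5 := h4.2
    simp only [Nat.unpair_pair] at h5
    rw [(gf_spec hchk P Q (n - a.n) a.n).2, good_iff] at h5
    obtain ⟨q, hq, hqn, hq1, hq2⟩ := h5
    refine ⟨q, hq, by omega, fun v hv => ?_, fun v hv => ?_⟩
    · by_cases hv1 : v.unpair.1 ≤ a.n
      · rcases (h2 v hv).2 with h | h
        · exact absurd hv1 h
        · exact Cnd.D_mono a q hq h
      · have := (h2 v hv).1
        exact hq1 v hv (by omega) (by omega)
    · by_cases hv1 : v.unpair.1 ≤ a.n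
      · rcases h3 v hv with h | h
        · exact absurd hv1 h
        · rintro ⟨h6, h7⟩
          rw [hq.ty_eq hv1] at h7
          exact h ⟨hv1, h7⟩
      · intro h6
        exact hq2 v hv (by omega) h6.1 h6
  · rintro ⟨b, hb, rfl, hP, hQ⟩
    refine ⟨⟨⟨hb.1, fun v hv => ⟨(hP v hv).1, ?_⟩⟩, fun v hv => ?_⟩, ?_⟩
    · by_cases hv1 : v.unpair.1 ≤ a.n
      · exact Or.inr ⟨hv1, by rw [← hb.ty_eq hv1]; exact (hP v hv).2⟩
      · exact Or.inl hv1
    · by_cases hv1 : v.unpair.1 ≤ a.n
      · exact Or.inr fun h => hQ v hv (Cnd.D_mono a b hb h)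
      · exact Or.inl hv1
    · refine ⟨by simp, ?_⟩
      simp only [Nat.unpair_pair]
      rw [(gf_spec hchk P Q (b.n - a.n) a.n).2, good_iff]
      refine ⟨b, hb, ?_, fun v hv _ _ => hP v hv, fun v hv _ _ => hQ v hv⟩
      have := hb.1
      omega

/-! ### Realizing sets of facts -/

theorem exists_lift {j n : ℕ} (h : j ≤ n) (φ : (presLang F R).BoundedFormula Empty j) :
    ∃ φ' : (presLang F R).BoundedFormula Empty n, ∀ b : ℕ → N,
      φ'.Realize default (fun i : Fin n => b i) ↔ φ.Realize default (fun i : Fin j => b i) := by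
  induction n, h using Nat.le_induction with
  | base => exact ⟨φ, fun b => Iff.rfl⟩
  | succ n hn ih =>
    obtain ⟨φ', h'⟩ := ih
    refine ⟨φ'.liftAt 1 n, fun b => ?_⟩
    rw [BoundedFormula.realize_liftAt_one_self, ← h' b]
    rfl

theorem sat_spec (hsat : Saturated (L := presLang F R) N) {chk : ℕ → Bool} {a₀ : ℕ → N}
    (hchk : ∀ c, chk c = true ↔ c ∈ ty F R a₀ 0) (a : Cnd N) {mem : ℕ → Bool}
    (hmem : ∀ v, mem v = true ↔ v ∈ a.D F R) (n : ℕ) (S : Set ℕ)
    (hS : ∀ P Q : List ℕ, (∀ v ∈ P, v ∈ S) → (∀ v ∈ Q, v ∉ S) →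
      tS chk mem a.n n P Q = true) :
    ∃ b : Cnd N, a.le b ∧ b.n = n ∧ b.D F R = S := by
  classical
  have hS' : ∀ P Q : List ℕ, (∀ v ∈ P, v ∈ S) → (∀ v ∈ Q, v ∉ S) →
      ∃ b : Cnd N, a.le b ∧ b.n = n ∧ (∀ v ∈ P, v ∈ b.D F R) ∧ ∀ v ∈ Q, v ∉ b.D F R :=
    fun P Q hP hQ => (tS_spec hchk a hmem n P Q).1 (hS P Q hP hQ)
  obtain ⟨b0, hb0, hb0n, -⟩ := hS' [] [] (by simp) (by simp)
  obtain ⟨k, hk⟩ : ∃ k, n = a.n + k := ⟨n - a.n, by have := hb0.1; omega⟩
  subst hk
  set p : Set ((presLang F R).BoundedFormula Empty (a.n + k)) :=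
    {φ | ∃ P Q : List ℕ, (∀ v ∈ P, v ∈ S) ∧ (∀ v ∈ Q, v ∉ S) ∧
      ∀ b : Cnd N, a.le b → b.n = a.n + k → (∀ v ∈ P, v ∈ b.D F R) → (∀ v ∈ Q, v ∉ b.D F R) →
        φ.Realize default (fun i : Fin (a.n + k) => b.a i)} with hp
  have key := hsat a.n (fun i => a.a i) k p ?_
  swap
  · intro s hs
    have h1 : ∃ P Q : List ℕ, (∀ v ∈ P, v ∈ S) ∧ (∀ v ∈ Q, v ∉ S) ∧
      ∀ b : Cnd N, a.le b → b.n = a.n + k → (∀ v ∈ P, v ∈ b.D F R) → (∀ v ∈ Q, v ∉ b.D F R) →
        ∀ φ ∈ s, φ.Realize default (fun i : Fin (a.n + k) => b.a i) := by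
      clear hS hS'
      induction s using Finset.induction_on with
      | empty => exact ⟨[], [], by simp, by simp, by simp⟩
      | insert φ s hφ ih =>
        obtain ⟨P, Q, h1, h2, h3⟩ := ih (fun x hx => hs (by simp [Finset.mem_coe.1 hx]))
        obtain ⟨P', Q', h4, h5, h6⟩ := hs (show φ ∈ _ by simp)
        refine ⟨P ++ P', Q ++ Q', ?_, ?_, ?_⟩
        · intro v hv
          rcases List.mem_append.1 hv with h | h
          exacts [h1 v h, h4 v h]
        · intro v hv
          rcases List.mem_append.1 hv with h | h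
          exacts [h2 v h, h5 v h]
        · intro b hb hbn hP hQ ψ hψ
          rcases Finset.mem_insert.1 hψ with rfl | hψ
          · exact h6 b hb hbn (fun v hv => hP v (by simp [hv])) fun v hv => hQ v (by simp [hv])
          · exact h3 b hb hbn (fun v hv => hP v (by simp [hv]))
              (fun v hv => hQ v (by simp [hv])) ψ hψ
    obtain ⟨P, Q, h1, h2, h3⟩ := h1
    obtain ⟨b, hb, hbn, hP, hQ⟩ := hS' P Q h1 h2
    refine ⟨fun i => b.a (a.n + i), fun φ hφ => ?_⟩
    have e : (Fin.append (fun i : Fin a.n => a.a i) fun i : Fin k => b.a (a.n + i)) =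
        fun i : Fin (a.n + k) => b.a i := by
      funext i
      refine Fin.addCases (fun i => ?_) (fun i => ?_) i
      · rw [Fin.append_left]
        exact (hb.2 i i.2).symm
      · rw [Fin.append_right]
        simp
    rw [e]
    exact h3 b hb hbn hP hQ φ hφ
  · obtain ⟨c, hc⟩ := key
    set b : ℕ → N := fun i => if h : i < a.n + k then
      Fin.append (fun i : Fin a.n => a.a i) c ⟨i, h⟩ else a.a 0 with hb
    have e : (Fin.append (fun i : Fin a.n => a.a i) c) = fun i : Fin (a.n + k) => b i := by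
      funext i
      simp [hb, i.2]
    have hba : ∀ i < a.n, b i = a.a i := by
      intro i hi
      have h1 : (⟨i, by omega⟩ : Fin (a.n + k)) = Fin.castAdd k ⟨i, hi⟩ := rfl
      simp only [hb]
      rw [dif_pos (by omega), h1, Fin.append_left]
    rw [e] at hc
    have hinj : ∀ i j, i < j → j < a.n + k → b i ≠ b j := by
      intro i j hij hj
      obtain ⟨φ, hφ⟩ := isF_not.2 (isF_eqv (F := F) (R := R) (n := a.n + k) (i := i) (j := j)
        (by omega) hj)
      have h1 : φ ∈ p := by
        refine ⟨[], [], by simp, by simp, fun b' _ hb'n _ _ => ?_⟩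
        rw [← mem_ty, hφ, ty_not (isF_eqv (by omega) hj), ty_eqv (by omega) hj]
        exact b'.inj i j hij (by omega)
      have h2 := hc φ h1
      rw [← mem_ty, hφ, ty_not (isF_eqv (by omega) hj), ty_eqv (by omega) hj] at h2
      exact h2
    refine ⟨⟨a.n + k, b, hinj⟩, ⟨Nat.le_add_right _ _, hba⟩, rfl, ?_⟩
    ext v
    constructor
    · rintro ⟨hv1, hv2⟩
      by_contra hvS
      obtain ⟨φ, hφ1, hφ2⟩ := hv2
      obtain ⟨φ', hφ'⟩ := exists_lift (N := N) hv1 φ
      have h1 : ∼φ' ∈ p := by
        refine ⟨[], [v], by simp, by simpa using hvS, fun b' _ hb'n _ hQ => ?_⟩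
        rw [BoundedFormula.realize_not, hφ']
        intro h
        refine hQ v (by simp) ⟨by rw [hb'n]; exact hv1, ?_⟩
        exact ⟨φ, h, hφ2⟩
      have h2 := hc _ h1
      rw [BoundedFormula.realize_not, hφ'] at h2
      exact h2 hφ1
    · intro hvS
      obtain ⟨b1, hb1, hb1n, hP, -⟩ := hS' [v] [] (by simpa using hvS) (by simp)
      obtain ⟨hv1, hv2⟩ := hP v (by simp)
      rw [hb1n] at hv1
      obtain ⟨φ, -, hφ2⟩ := hv2
      obtain ⟨φ', hφ'⟩ := exists_lift (N := N) hv1 φ
      have h1 : φ' ∈ p := by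
        refine ⟨[v], [], by simpa using hvS, by simp, fun b' _ hb'n hP _ => ?_⟩
        rw [hφ']
        have := (hP v (by simp)).2
        rw [← hφ2] at this
        exact mem_ty.1 this
      have h2 := hc _ h1
      rw [hφ'] at h2
      exact ⟨hv1, ⟨φ, h2, hφ2⟩⟩

/-! ### Computability of the facts of a condition -/

theorem comp_any_const {α ι : Type} [Primcodable α] (l : List ι) {p : ι → α → Bool}
    (hp : ∀ i ∈ l, Computable (p i)) : Computable fun a => l.any fun i => p i a := by
  induction l with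
  | nil => exact Computable.const false
  | cons i l ih =>
    simp only [List.any_cons]
    exact comp_or (hp i (by simp)) (ih fun j hj => hp j (by simp [hj]))

theorem exists_mem (hty : ∀ (n : ℕ) (v : Fin n → N), ComputablePred fun c => c ∈ typeOf F R v)
    (p : Cnd N) : ∃ mem : ℕ → Bool, Computable mem ∧ ∀ v, mem v = true ↔ v ∈ p.D F R := by
  have h1 : ∀ k, ∃ g : ℕ → Bool, Computable g ∧ ∀ c, g c = true ↔ c ∈ ty F R p.a k := by
    intro k
    obtain ⟨g, hg, h⟩ := ComputablePred.computable_iff.1 (hty k (fun i => p.a i))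
    refine ⟨g, hg, fun c => ?_⟩
    exact (Eq.to_iff (congrFun h c)).symm
  choose g hg hg' using h1
  refine ⟨fun v => (List.range (p.n + 1)).any fun k => (v.unpair.1 == k) && g k v.unpair.2,
    ?_, fun v => ?_⟩
  · refine comp_any_const _ fun k _ => comp_and ?_ ?_
    · exact comp_beq (comp_fst' Computable.id) (Computable.const k)
    · exact (hg k).comp (comp_snd' Computable.id)
  · simp only [List.any_eq_true, List.mem_range, Bool.and_eq_true, beq_iff_eq, hg', Cnd.D]
    constructor
    · rintro ⟨k, hk, rfl, h⟩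
      exact ⟨by omega, h⟩
    · rintro ⟨h1, h2⟩
      exact ⟨_, by omega, rfl, h2⟩

theorem exists_chk (hty : ∀ (n : ℕ) (v : Fin n → N), ComputablePred fun c => c ∈ typeOf F R v)
    (a₀ : ℕ → N) : ∃ chk : ℕ → Bool, Computable chk ∧ ∀ c, chk c = true ↔ c ∈ ty F R a₀ 0 := by
  obtain ⟨g, hg, h⟩ := ComputablePred.computable_iff.1 (hty 0 (fun i => a₀ i))
  exact ⟨g, hg, fun c => (Eq.to_iff (congrFun h c)).symm⟩

/-- The coding system attached to a countable saturated structure with computable types. -/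
noncomputable def sys (F R : ℕ → ℕ → Prop) (N : Type) [(presLang F R).Structure N] [Infinite N]
    (hty : ∀ (n : ℕ) (v : Fin n → N), ComputablePred fun c => c ∈ typeOf F R v)
    (hsat : Saturated (L := presLang F R) N) (e : ℕ → N) : CodeSystem where
  C := Cnd N
  le := Cnd.le
  le_refl := Cnd.le_refl
  le_trans := Cnd.le_trans
  D := Cnd.D F R
  D_mono := Cnd.D_mono
  D_comp := fun a => by
    obtain ⟨mem, h1, h2⟩ := exists_mem hty a
    refine ComputablePred.computable_iff.2 ⟨mem, h1, ?_⟩
    funext v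
    exact propext (h2 v).symm
  lev := Cnd.n
  f := fS (Classical.choose (exists_chk hty e))
  f_comp := comp_fS (Classical.choose_spec (exists_chk hty e)).1
  f_spec := fS_spec (Classical.choose_spec (exists_chk hty e)).2
  ext := Cnd.ext
  test := fun a n P Q => tS (Classical.choose (exists_chk hty e))
    (Classical.choose (exists_mem hty a)) a.n n P Q
  test_comp := fun a => comp_tS (Classical.choose_spec (exists_chk hty e)).1
    (Classical.choose_spec (exists_mem hty a)).1 a.n
  test_spec := fun a => tS_spec (Classical.choose_spec (exists_chk hty e)).2 a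
    (Classical.choose_spec (exists_mem hty a)).2
  sat := fun a => sat_spec hsat (Classical.choose_spec (exists_chk hty e)).2 a
    (Classical.choose_spec (exists_mem hty a)).2
  dense := fun i => {b | ∃ k < b.n, b.a k = e i}
  dense_spec := fun i a => a.append (e i)
  start := ⟨0, e, fun i k _ hk => absurd hk (by omega)⟩

end Pool.Agent.Helper64.SatB
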