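import Mathlib
import Pool.Agent.Helper64.SatB.Sys

/-!
# The structure on `ℕ` given by a generic enumeration
-/

set_option autoImplicit false

namespace Pool.Agent.Helper64.SatB

open FirstOrder FirstOrder.Language Pool.Agent.Helper30.SatB

section Transfer

variable {L : FirstOrder.Language.{0, 0}} {M N : Type} [L.Structure M] [L.Structure N]

theorem realize_equiv (g : M ≃[L] N) {n : ℕ} (φ : L.BoundedFormula Empty n) (v : Fin n → M) :
    φ.Realize default (fun i => g (v i)) ↔ φ.Realize default v := by
  have h := StrongHomClass.realize_boundedFormula (L := L) g φ (v := default) (xs := v)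
  rw [← h]
  have e : (g ∘ (default : Empty → M)) = default := by
    funext x
    exact x.elim
  rw [e]
  rfl

theorem saturated_equiv (g : M ≃[L] N) (h : Saturated (L := L) M) : Saturated (L := L) N := by
  intro m a n p hp
  have key := h m (fun i => g.symm (a i)) n p ?_
  · obtain ⟨c, hc⟩ := key
    refine ⟨fun i => g (c i), fun φ hφ => ?_⟩
    rw [← realize_equiv g.symm φ]
    have e : (fun i => g.symm ((Fin.append a fun i => g (c i)) i)) =
        Fin.append (fun i => g.symm (a i)) c := by
      funext i
      refine Fin.addCases (fun i => ?_) (fun i => ?_) i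
      · rw [Fin.append_left, Fin.append_left]
      · rw [Fin.append_right, Fin.append_right, FirstOrder.Language.Equiv.symm_apply_apply]
    rw [e]
    exact hc φ hφ
  · intro s hs
    obtain ⟨c, hc⟩ := hp s hs
    refine ⟨fun i => g.symm (c i), fun φ hφ => ?_⟩
    have e : (Fin.append (fun i => g.symm (a i)) fun i => g.symm (c i)) =
        fun i => g.symm (Fin.append a c i) := by
      funext i
      refine Fin.addCases (fun i => ?_) (fun i => ?_) i
      · rw [Fin.append_left, Fin.append_left]
      · rw [Fin.append_right, Fin.append_right]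
    rw [e, realize_equiv g.symm φ]
    exact hc φ hφ

theorem model_equiv (g : M ≃[L] N) (T : L.Theory) (h : M ⊨ T) : N ⊨ T :=
  StrongHomClass.theory_model g (T := T)

end Transfer

variable {F R : ℕ → ℕ → Prop} {N : Type} [(presLang F R).Structure N]

theorem Cnd.le_of_le {b : ℕ → Cnd N} (hb : ∀ s, (b s).le (b (s + 1))) {s t : ℕ} (h : s ≤ t) :
    (b s).le (b t) := by
  induction t, h using Nat.le_induction with
  | base => exact (b s).le_refl
  | succ t _ ih => exact (b s).le_trans _ _ ih (hb t)

/-- The structure given by a generic enumeration of a countable structure, and its elementary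
diagram. -/
theorem exists_structure [Infinite N] (T : (presLang F R).Theory) (hT : N ⊨ T)
    (hsat : Saturated (L := presLang F R) N) {e : ℕ → N} (he : Function.Surjective e)
    (b : ℕ → Cnd N) (hb : ∀ s, (b s).le (b (s + 1))) (hd : ∀ i, ∃ s, ∃ k < (b s).n, (b s).a k = e i) :
    ∃ S : (presLang F R).Structure ℕ, ℕ ⊨ T ∧ Saturated (L := presLang F R) ℕ ∧
      elementaryDiagram S = {v | ∃ s, v ∈ (b s).D F R} := by
  classical
  have hcoh : ∀ s t k, k < (b s).n → k < (b t).n → (b s).a k = (b t).a k := by
    intro s t k hs ht
    rcases le_total s t with h | h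
    · exact ((Cnd.le_of_le hb h).2 k hs).symm
    · exact (Cnd.le_of_le hb h).2 k ht
  have hlev : ∀ k, ∃ s, k < (b s).n := by
    intro k
    by_contra hcon
    push Not at hcon
    have hmem : ∀ x : N, x ∈ (Finset.range k).image fun i =>
        if h : ∃ s, i < (b s).n then (b (Classical.choose h)).a i else e 0 := by
      intro x
      obtain ⟨i, rfl⟩ := he x
      obtain ⟨s, l, hl, hx⟩ := hd i
      refine Finset.mem_image.2 ⟨l, Finset.mem_range.2 (lt_of_lt_of_le hl (hcon s)), ?_⟩
      have h : ∃ s, l < (b s).n := ⟨s, hl⟩
      rw [dif_pos h, ← hx]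
      exact hcoh _ _ _ (Classical.choose_spec h) hl
    exact Infinite.exists_notMem_finset
      ((Finset.range k).image fun i =>
        if h : ∃ s, i < (b s).n then (b (Classical.choose h)).a i else e 0) |>.elim
      fun x hx => hx (hmem x)
  choose st hst using hlev
  set g : ℕ → N := fun k => (b (st k)).a k with hg
  have hgs : ∀ s k, k < (b s).n → g k = (b s).a k := fun s k hk => hcoh _ _ _ (hst k) hk
  have hinj : Function.Injective g := by
    have key : ∀ i k, i < k → g i ≠ g k := by
      intro i k hik
      rw [hgs (st k) i (lt_trans hik (hst k)), hgs (st k) k (hst k)]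
      exact (b (st k)).inj i k hik (hst k)
    intro i k h
    by_contra hne
    rcases lt_or_gt_of_ne hne with h' | h'
    · exact key i k h' h
    · exact key k i h' h.symm
  have hsurj : Function.Surjective g := by
    intro x
    obtain ⟨i, rfl⟩ := he x
    obtain ⟨s, k, hk, hx⟩ := hd i
    exact ⟨k, by rw [hgs s k hk, hx]⟩
  set E : ℕ ≃ N := Equiv.ofBijective g ⟨hinj, hsurj⟩ with hE
  letI S : (presLang F R).Structure ℕ := Equiv.inducedStructure E.symm
  have G : N ≃[presLang F R] ℕ := Equiv.inducedStructureEquiv E.symm
  refine ⟨S, model_equiv (Equiv.inducedStructureEquiv E.symm) T hT,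
    saturated_equiv (Equiv.inducedStructureEquiv E.symm) hsat, ?_⟩
  have hreal : ∀ (n : ℕ) (φ : (presLang F R).BoundedFormula Empty n),
      φ.Realize default (fun i : Fin n => (i : ℕ)) ↔
        φ.Realize default (fun i : Fin n => g i) := by
    intro n φ
    rw [← realize_equiv (Equiv.inducedStructureEquiv (L := presLang F R) E.symm) φ
      (fun i : Fin n => g i)]
    have : (fun i : Fin n => (Equiv.inducedStructureEquiv (L := presLang F R) E.symm) (g i)) =
        fun i : Fin n => (i : ℕ) := by
      funext i
      exact E.symm_apply_apply i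
    rw [this]
    rw [show (default : Empty → ℕ) = (fun x => x.elim) from funext fun x => x.elim]
    exact Iff.of_eq (congrArg (fun w => @BoundedFormula.Realize (presLang F R) ℕ S Empty n φ w
      fun i : Fin n => (i : ℕ)) (funext fun x => x.elim))
  ext v
  simp only [Helper30.SatB.elementaryDiagram, Set.mem_ofPred_eq]
  constructor
  · rintro ⟨φ, h1, h2⟩
    rw [hreal] at h1
    refine ⟨st v.unpair.1, (hst _).le, φ, ?_, h2⟩
    have e1 : (fun i : Fin v.unpair.1 => (b (st v.unpair.1)).a i) =
        fun i : Fin v.unpair.1 => g i := by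
      funext i
      exact (hgs _ _ (lt_trans i.2 (hst _))).symm
    rw [e1]
    exact h1
  · rintro ⟨s, h1, φ, h2, h3⟩
    refine ⟨φ, ?_, h3⟩
    rw [hreal]
    have e1 : (fun i : Fin v.unpair.1 => (b s).a i) = fun i : Fin v.unpair.1 => g i := by
      funext i
      exact (hgs _ _ (lt_of_lt_of_le i.2 h1)).symm
    rw [← e1]
    exact h2

end Pool.Agent.Helper64.SatB
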