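import Mathlib
import Pool.Agent.Helper64.SatB.Diag
import Pool.Agent.Helper30.SatB.Generic
import Pool.Agent.Helper10.PA.Final
import Pool.Agent.Helper27.High

/-!
# A saturated bounding set which is neither high nor of PA degree
-/

set_option autoImplicit false

namespace Pool.Agent.Helper64.SatB

open FirstOrder FirstOrder.Language Pool.Agent.Helper30.SatB

/-- The graph of a function, as a set of numbers. -/
def graph (X : ℕ → ℕ) : Set ℕ := {p | X p.unpair.1 = p.unpair.2}

theorem ri_iff {X f : ℕ → ℕ} :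
    RI X f ↔ TuringReducible (fun n => Part.some (f n)) (fun n => Part.some (X n)) :=
  RecursiveIn.iff_nat.symm

theorem comp_bif {α : Type} [Primcodable α] {p : α → Bool} (hp : Computable p) (a b : ℕ) :
    Computable fun x => bif p x then a else b :=
  Computable.cond hp (Computable.const a) (Computable.const b)

theorem graph_ri (X : ℕ → ℕ) : RI X (charFun (graph X)) := by
  have h1 : RI X fun p : ℕ => X p.unpair.1 :=
    RI.oracle.comp (RI.of_computable (comp_fst' Computable.id))
  have h2 : RI X fun p : ℕ => p.unpair.2 := RI.of_computable (comp_snd' Computable.id)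
  have h3 : Computable₂ fun a b : ℕ => bif a == b then 1 else 0 :=
    comp_bif (comp_beq Computable.fst Computable.snd) 1 0
  refine (RI.comp₂ h3 h1 h2).of_eq fun p => ?_
  by_cases h : X p.unpair.1 = p.unpair.2
  · simp [charFun, graph, h]
  · have h' : (X p.unpair.1 == p.unpair.2) = false := by simpa using h
    simp [charFun, graph, h, h']

theorem ri_graph (X : ℕ → ℕ) : RI (charFun (graph X)) X := by
  have h1 : RI (charFun (graph X)) fun p : ℕ => 1 - charFun (graph X) p :=
    RI.comp₂ (F := fun a _ => 1 - a) (comp_sub (Computable.const 1) Computable.fst) RI.oracle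
      RI.oracle
  have hex : ∀ a, ∃ n, 1 - charFun (graph X) (Nat.pair a n) = 0 := by
    intro a
    exact ⟨X a, by simp [charFun, graph]⟩
  refine (h1.find hex).of_eq fun a => ?_
  have h := Nat.find_spec (hex a)
  generalize Nat.find (hex a) = n at h ⊢
  by_contra hne
  have : charFun (graph X) (Nat.pair a n) = 0 := by
    simp only [charFun, graph, Set.mem_ofPred_eq, Nat.unpair_pair]
    rw [if_neg]
    exact fun h => hne h.symm
  rw [this] at h
  exact absurd h (by simp)

/-- A set of facts which is enumerated by `X` and complete is computable from `X`. -/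
theorem ri_of_enum {X : ℕ → ℕ} {k t : ℕ} {D : Set ℕ} {c : ℕ → Bool} (hc : Computable c)
    (h1 : ∀ v, c v = false → v ∉ D)
    (h2 : ∀ v, c v = true → (v ∈ D ↔ Nat.pair v.unpair.1 (cnot v.unpair.2) ∉ D))
    (h3 : ∀ v, v ∈ D ↔ ∃ n, t ≤ n ∧ X n = Nat.pair k v) : RI X (charFun D) := by
  classical
  have hH : Computable₂ fun p x : ℕ => bif (!c p.unpair.1 || (decide (t ≤ p.unpair.2) &&
      (x == Nat.pair k p.unpair.1 || x == Nat.pair k
        (Nat.pair p.unpair.1.unpair.1 (cnot p.unpair.1.unpair.2))))) then 0 else 1 := by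
    have e1 : Computable fun q : ℕ × ℕ => q.1.unpair.1 := comp_fst' Computable.fst
    refine comp_bif (comp_or (comp_not (hc.comp e1)) (comp_and
      (comp_le (Computable.const t) (comp_snd' Computable.fst)) (comp_or ?_ ?_))) 0 1
    · exact comp_beq Computable.snd (comp_pair (Computable.const k) e1)
    · exact comp_beq Computable.snd (comp_pair (Computable.const k)
        (comp_pair (comp_fst' e1) (comp_cnot (comp_snd' e1))))
  have hf := RI.comp₂ hH (RI.of_computable Computable.id)
    (RI.oracle.comp (RI.of_computable (comp_snd' Computable.id)) : RI X fun p => X p.unpair.2)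
  have hex : ∀ v, ∃ n, (bif (!c (Nat.pair v n).unpair.1 || (decide (t ≤ (Nat.pair v n).unpair.2) &&
      (X (Nat.pair v n).unpair.2 == Nat.pair k (Nat.pair v n).unpair.1 ||
        X (Nat.pair v n).unpair.2 == Nat.pair k
        (Nat.pair (Nat.pair v n).unpair.1.unpair.1
          (cnot (Nat.pair v n).unpair.1.unpair.2))))) then 0 else 1) = 0 := by
    intro v
    cases hcv : c v with
    | false => exact ⟨0, by simp [hcv]⟩
    | true =>
      by_cases hv : v ∈ D
      · obtain ⟨n, hn, hn'⟩ := (h3 v).1 hv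
        exact ⟨n, by simp [hn, hn']⟩
      · have hv' : Nat.pair v.unpair.1 (cnot v.unpair.2) ∈ D := by
          by_contra h
          exact hv ((h2 v hcv).2 h)
        obtain ⟨n, hn, hn'⟩ := (h3 _).1 hv'
        exact ⟨n, by simp [hn, hn']⟩
  have hg := hf.find hex
  have hK : Computable₂ fun v x : ℕ => bif (c v && x == Nat.pair k v) then 1 else 0 :=
    comp_bif (comp_and (hc.comp Computable.fst) (comp_beq Computable.snd
      (comp_pair (Computable.const k) Computable.fst))) 1 0
  refine (RI.comp₂ hK (RI.of_computable Computable.id) (RI.oracle.comp hg)).of_eq fun v => ?_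
  have h := Nat.find_spec (hex v)
  generalize Nat.find (hex v) = n at h ⊢
  simp only [Nat.unpair_pair] at h
  simp only [id_eq]
  cases hcv : c v with
  | false => simp [charFun, h1 v hcv]
  | true =>
    rw [hcv] at h
    have h' : t ≤ n ∧ (X n = Nat.pair k v ∨
        X n = Nat.pair k (Nat.pair v.unpair.1 (cnot v.unpair.2))) := by
      by_contra hcon
      have : (!true || (decide (t ≤ n) && (X n == Nat.pair k v ||
          X n == Nat.pair k (Nat.pair v.unpair.1 (cnot v.unpair.2))))) = false := by
        rw [← Bool.not_eq_true]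
        intro h4
        apply hcon
        simpa using h4
      rw [this] at h
      exact absurd h (by simp)
    obtain ⟨h4, h5⟩ := h'
    by_cases h6 : X n = Nat.pair k v
    · have : v ∈ D := (h3 v).2 ⟨n, h4, h6⟩
      simp [charFun, this, h6]
    · rcases h5 with h5 | h5
      · exact absurd h5 h6
      · have h7 : Nat.pair v.unpair.1 (cnot v.unpair.2) ∈ D := (h3 _).2 ⟨n, h4, h5⟩
        have h8 : v ∉ D := fun hv => (h2 v hcv).1 hv h7
        have h9 : (X n == Nat.pair k v) = false := by simpa using h6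
        simp [charFun, h8, h9]

theorem mem_diag {F R : ℕ → ℕ → Prop} (S : (presLang F R).Structure ℕ) (v : ℕ) :
    v ∈ Helper30.SatB.elementaryDiagram S ↔ v.unpair.2 ∈ ty F R (fun i : ℕ => i) v.unpair.1 := by
  simp only [Helper30.SatB.elementaryDiagram, Set.mem_ofPred_eq, ty, typeOf]
  have e : (default : Empty → ℕ) = (@default (Empty → ℕ) Unique.instInhabited) :=
    funext fun x => x.elim
  rw [e]

/-- The diagram of a structure on `ℕ` with computable types is computable from every oracle
enumerating it. -/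
theorem ri_diagram {F R : ℕ → ℕ → Prop} (S : (presLang F R).Structure ℕ)
    (hty : ∀ (n : ℕ) (v : Fin n → ℕ), ComputablePred fun c => c ∈ typeOf F R v)
    {X : ℕ → ℕ} {k t : ℕ}
    (h3 : ∀ v, v ∈ Helper30.SatB.elementaryDiagram S ↔ ∃ n, t ≤ n ∧ X n = Nat.pair k v) :
    RI X (charFun (Helper30.SatB.elementaryDiagram S)) := by
  obtain ⟨chk, hchk, hchk'⟩ := exists_chk hty (fun i : ℕ => i)
  refine ri_of_enum (c := fun v => chk (callN v.unpair.1 (cimp v.unpair.2 v.unpair.2))) ?_
    ?_ ?_ h3
  · exact hchk.comp (comp_callN (comp_fst' Computable.id) (comp_cimp (comp_snd' Computable.id)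
      (comp_snd' Computable.id)))
  · intro v hv h
    rw [mem_diag] at h
    have := (hchk' _).2 (isF_iff.1 (isF_of_mem h))
    rw [hv] at this
    exact absurd this (by simp)
  · intro v hv
    have h := isF_iff.2 ((hchk' _).1 hv)
    rw [mem_diag, mem_diag]
    simp only [Nat.unpair_pair]
    rw [ty_not h, not_not]

/-- The relevant theories. -/
structure Idx where
  F : ℕ → ℕ → Prop
  R : ℕ → ℕ → Prop
  T : (presLang F R).Theory
  hF : ComputablePred (fun p : ℕ × ℕ => F p.1 p.2)
  hR : ComputablePred (fun p : ℕ × ℕ => R p.1 p.2)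
  hmax : T.IsMaximal
  hdec : DecidableTheory T
  hty : TypesComputable T
  hinf : ∃ (M : Type) (_ : (presLang F R).Structure M), Infinite M ∧ M ⊨ T

theorem comp_pred_unpair {P : ℕ → ℕ → Prop} (h : ComputablePred (fun p : ℕ × ℕ => P p.1 p.2)) :
    ComputablePred fun c : ℕ => c ∈ {n : ℕ | P n.unpair.1 n.unpair.2} := by
  obtain ⟨f, hf, h⟩ := ComputablePred.computable_iff.1 h
  refine ComputablePred.computable_iff.2 ⟨fun n => f n.unpair, hf.comp Computable.unpair, ?_⟩
  funext n
  exact congrFun h n.unpair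

instance : Countable Idx := by
  have hc := Helper27.Sat.countable_computable_sets
  have : Countable {S : Set ℕ // ComputablePred fun c : ℕ => c ∈ S} := hc.to_subtype
  let code : Idx → {S : Set ℕ // ComputablePred fun c : ℕ => c ∈ S} ×
      {S : Set ℕ // ComputablePred fun c : ℕ => c ∈ S} ×
      {S : Set ℕ // ComputablePred fun c : ℕ => c ∈ S} := fun i =>
    (⟨_, comp_pred_unpair i.hF⟩, ⟨_, comp_pred_unpair i.hR⟩,
      ⟨{c | ∃ φ ∈ i.T, formulaCode φ = c}, i.hdec⟩)
  refine Function.Injective.countable (f := code) ?_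
  rintro ⟨F, R, T, h1, h2, h3, h4, h5, h6⟩ ⟨F', R', T', h1', h2', h3', h4', h5', h6'⟩ h
  have hF : {n : ℕ | F n.unpair.1 n.unpair.2} = {n : ℕ | F' n.unpair.1 n.unpair.2} :=
    congrArg (fun x => x.1.1) h
  have hR : {n : ℕ | R n.unpair.1 n.unpair.2} = {n : ℕ | R' n.unpair.1 n.unpair.2} :=
    congrArg (fun x => x.2.1.1) h
  have hT : {c | ∃ φ ∈ T, formulaCode φ = c} = {c | ∃ φ ∈ T', formulaCode φ = c} :=
    congrArg (fun x => x.2.2.1) h
  have eF : F = F' := by
    funext n i
    have := congrArg (fun S : Set ℕ => Nat.pair n i ∈ S) hF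
    simpa using this
  subst eF
  have eR : R = R' := by
    funext n i
    have := congrArg (fun S : Set ℕ => Nat.pair n i ∈ S) hR
    simpa using this
  subst eR
  have eT : T = T' := by
    ext φ
    have := congrArg (fun S : Set ℕ => formulaCode φ ∈ S) hT
    simp only [Set.mem_ofPred_eq, eq_iff_iff] at this
    constructor
    · intro h
      obtain ⟨ψ, hψ, e⟩ := this.1 ⟨φ, h, rfl⟩
      rwa [← Helper27.Sat.formulaCode_injective e]
    · intro h
      obtain ⟨ψ, hψ, e⟩ := this.2 ⟨φ, h, rfl⟩
      rwa [← Helper27.Sat.formulaCode_injective e]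
  subst eT
  rfl

theorem exists_system (i : Idx) : ∃ S : CodeSystem, ∀ a : ℕ → S.C,
    (∀ s, S.le (a s) (a (s + 1))) → (∀ m, ∃ s, a s ∈ S.dense m) →
    ∃ Str : (presLang i.F i.R).Structure ℕ, ℕ ⊨ i.T ∧ Saturated (L := presLang i.F i.R) ℕ ∧
      Helper30.SatB.elementaryDiagram Str = {v | ∃ s, v ∈ S.D (a s)} := by
  obtain ⟨N, str, hcount, hinf, hm, hsat⟩ :=
    Helper27.Sat.exists_countable_saturated i.T i.hty i.hinf
  have hty := i.hty N hm
  obtain ⟨e, he⟩ := exists_surjective_nat N
  exact ⟨sys i.F i.R N hty hsat e, fun a ha hd => exists_structure i.T hm hsat he a ha hd⟩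

/-- There is a saturated bounding set which is neither high nor of PA degree. -/
theorem main : ∃ X : Set ℕ, SaturatedBounding X ∧ ¬ High X ∧ ¬ PADegree X := by
  choose S hS using exists_system
  obtain ⟨X, h1, h2, h3⟩ := exists_generic_oracle S
  refine ⟨graph X, ?_, ?_, ?_⟩
  · intro F R hF hR T hmax hdec hty hinf
    obtain ⟨k, t, a, ha, hd, hD⟩ := h1 ⟨F, R, T, hF, hR, hmax, hdec, hty, hinf⟩
    obtain ⟨Str, hm, hsat, hdiag⟩ := hS ⟨F, R, T, hF, hR, hmax, hdec, hty, hinf⟩ a ha hd
    refine ⟨Str, hm, hsat, ?_⟩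
    have hr : RI X (charFun (Helper30.SatB.elementaryDiagram Str)) := by
      refine ri_diagram Str (hty ℕ hm) (k := k) (t := t) fun v => ?_
      rw [hdiag]
      exact hD v
    exact ri_iff.1 (hr.trans (ri_graph X))
  · intro h
    obtain ⟨f, hf, hdom⟩ := Helper27.High.high_dominates (graph X) h
    have hf' : RI X f := (ri_iff.2 hf).trans (graph_ri X)
    obtain ⟨g, hg, hbd⟩ := h3 f hf'
    obtain ⟨N, hN⟩ := hdom (fun n => g n + 1) (Computable.succ.comp hg)
    obtain ⟨n, hn, hn'⟩ := hbd N
    have := hN n hn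
    omega
  · rintro ⟨T, hmax, hPA, hT⟩
    obtain ⟨s, hs, hsep⟩ := Helper10.PA.pa_separation
    have hT' : RI X (charFun {c | ∃ φ ∈ T, formulaCode φ = c}) :=
      (ri_iff.2 hT).trans (graph_ri X)
    have h4 : RI X fun e => charFun {c | ∃ φ ∈ T, formulaCode φ = c} (s e) :=
      hT'.comp (RI.of_computable hs)
    have h5 : RI X fun e => 1 - charFun {c | ∃ φ ∈ T, formulaCode φ = c} (s e) :=
      RI.comp₂ (F := fun a _ => 1 - a) (comp_sub (Computable.const 1) Computable.fst) h4 h4
    refine h2 _ h5 fun e => ⟨by omega, fun hmem => ?_⟩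
    by_cases hin : ∃ φ ∈ T, formulaCode φ = s e
    · have e1 : charFun {c | ∃ φ ∈ T, formulaCode φ = c} (s e) = 1 := by
        simp only [charFun, Set.mem_ofPred_eq]
        rw [if_pos hin]
      rw [e1] at hmem
      exact (hsep T hmax (fun M _ _ hM => hPA M hM) e).2 hmem hin
    · have e1 : charFun {c | ∃ φ ∈ T, formulaCode φ = c} (s e) = 0 := by
        simp only [charFun, Set.mem_ofPred_eq]
        rw [if_neg hin]
      rw [e1] at hmem
      exact hin ((hsep T hmax (fun M _ _ hM => hPA M hM) e).1 hmem)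

end Pool.Agent.Helper64.SatB
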